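import Pool.Agent.RTF.Stmts
import Pool.Agent.Helper54_TRF.Asm
import Pool.Agent.Helper63_FB.BR

/-!
# Squad RTF, module L2A: the transfer
-/

namespace Pool.Agent.RTF.H40

open Pool.Agent.Glue Pool.Agent.FB Pool.Agent.CD Pool.Agent.TRF

noncomputable section

variable {G : Type} [Group G] {I : Type} [Fintype I]

/-- The coefficients of the boundary modulo two. -/
def am (C : Cells G I) (i j : I) : G →₀ F2 :=
  (C.bd i j).coeff.mapRange (Int.cast : ℤ → F2) Int.cast_zero

theorem am_sum (C : Cells G I) (i j : I) {M : Type} [AddCommMonoid M] (φ : G → F2 → M)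
    (h0 : ∀ h, φ h 0 = 0) :
    (am C i j).sum φ = (C.bd i j).coeff.sum fun h c => φ h (c : F2) := by
  rw [am, Finsupp.sum_mapRange_index h0]

/-- The matrix of the coboundary over `K`. -/
def AK (D : KA G) (C : Cells G I) (i j : I) : D.K :=
  (C.bd i j).coeff.sum fun h c => (c : F2) • D.s h

theorem delta_kL (D : KA G) (C : Cells G I) (f : I → D.K) (i : I) :
    delta C D.kL f i = ∑ j, AK D C i j * f j := by
  change ∑ j, ((C.bd i j).coeff.sum fun h c => (c : F2) • (D.s h * f j)) = _
  refine Finset.sum_congr rfl fun j _ => ?_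
  rw [AK, Finsupp.sum, Finsupp.sum, Finset.sum_mul]
  refine Finset.sum_congr rfl fun h _ => ?_
  rw [smul_mul_assoc]

/-- The bound for the cocycles of a finite quotient. -/
theorem bound (C : Cells G I) {Q : Type} [Group Q] [Fintype Q] (K : Subgroup G)
    (π : G →* Q) (e : (G ⧸ K) ≃ Q) (he : ∀ g : G, e (g : G ⧸ K) = π g)
    (n : ℤ) {r : ℕ} (R S : Fin r → I) (hS : Function.Injective S)
    (hdeg : ∀ l, (C.deg (S l) : ℤ) = n) :
    Module.finrank (ZMod 2) (Cm (ZMod 2) C Q n ⊓ LinearMap.ker (cobm (ZMod 2) C π) :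
      Submodule (ZMod 2) (Q × I → ZMod 2)) + Fintype.card Q * r ≤
    Module.finrank F2 (kerQ K fun l l' => am C (R l) (S l')) + Fintype.card Q * nc C n := by
  classical
  let P : I → Prop := fun j => (C.deg j : ℤ) = n ∧ ∀ l, S l ≠ j
  -- the number of the other cells
  have hcard : Nat.card {j : I // P j} + r ≤ nc C n := by
    have hinj : Function.Injective (Sum.elim (fun j : {j : I // P j} =>
        (⟨j.1, j.2.1⟩ : {i : I // (C.deg i : ℤ) = n})) (fun l : Fin r =>
        (⟨S l, hdeg l⟩ : {i : I // (C.deg i : ℤ) = n}))) := by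
      rintro (⟨a, ha⟩ | a) (⟨b, hb⟩ | b) h
      · simp only [Sum.elim_inl, Subtype.mk.injEq] at h
        subst h
        rfl
      · simp only [Sum.elim_inl, Sum.elim_inr, Subtype.mk.injEq] at h
        exact absurd h.symm (ha.2 b)
      · simp only [Sum.elim_inl, Sum.elim_inr, Subtype.mk.injEq] at h
        exact absurd h (hb.2 a)
      · simp only [Sum.elim_inr, Subtype.mk.injEq] at h
        rw [hS h]
    have h := Nat.card_le_card_of_injective _ hinj
    rw [Nat.card_sum, Nat.card_fin] at h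
    exact h
  let N : Submodule (ZMod 2) (Q × I → ZMod 2) :=
    Cm (ZMod 2) C Q n ⊓ LinearMap.ker (cobm (ZMod 2) C π)
  -- restriction to the other cells
  let Ψ : (Q × I → ZMod 2) →ₗ[ZMod 2] (I → Q → ZMod 2) :=
    { toFun := fun f j q => if P j then f (q, j) else 0
      map_add' := by
        intro f g
        funext j q
        simp only [Pi.add_apply]
        split_ifs <;> simp
      map_smul' := by
        intro c f
        funext j q
        simp only [Pi.smul_apply, RingHom.id_apply]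
        split_ifs <;> simp }
  have h1 := finrank_map_add N Ψ
  -- the image
  have h2 : Module.finrank (ZMod 2) (N.map Ψ) ≤ Nat.card {j : I // P j} * Fintype.card Q := by
    let X : Submodule (ZMod 2) (I → Q → ZMod 2) :=
      { carrier := {f | ∀ j, ¬ P j → f j = 0}
        zero_mem' := fun _ _ => rfl
        add_mem' := by
          intro f g h1 h2 i hi
          rw [Pi.add_apply, h1 i hi, h2 i hi, add_zero]
        smul_mem' := by
          intro c f h1 i hi
          rw [Pi.smul_apply, h1 i hi, smul_zero] }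
    have hX := finrank_supp (D := ZMod 2) (M := Q → ZMod 2) P X (fun f => Iff.rfl)
    rw [Module.finrank_fintype_fun_eq_card] at hX
    rw [← hX]
    refine Submodule.finrank_mono ?_
    rintro _ ⟨f, -, rfl⟩
    intro j hj
    funext q
    change (if P j then f (q, j) else 0) = 0
    rw [if_neg hj]
  -- the kernel
  have : Finite (G ⧸ K) := Finite.of_equiv Q e.symm
  have h3 : Module.finrank (ZMod 2) (N ⊓ LinearMap.ker Ψ : Submodule (ZMod 2) _) ≤
      Module.finrank F2 (kerQ K fun l l' => am C (R l) (S l')) := by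
    have hvan : ∀ f ∈ (N ⊓ LinearMap.ker Ψ : Submodule (ZMod 2) _), ∀ q j, (∀ l, S l ≠ j) →
        f (q, j) = 0 := by
      rintro f ⟨⟨hf1, -⟩, hf2⟩ q j hj
      by_cases hd : (C.deg j : ℤ) = n
      · have h := congrFun (congrFun (LinearMap.mem_ker.1 hf2) j) q
        change (if P j then f (q, j) else 0) = 0 at h
        rwa [if_pos ⟨hd, hj⟩] at h
      · exact hf1 q j hd
    let Φ : (N ⊓ LinearMap.ker Ψ : Submodule (ZMod 2) _) →ₗ[ZMod 2]
        (kerQ K fun l l' => am C (R l) (S l')) :=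
      { toFun := fun f => ⟨fun l x => (f : Q × I → ZMod 2) (e x, S l), by
          intro l g
          have hf := f.2.1.2
          have h := congrFun (LinearMap.mem_ker.1 hf) (π g, R l)
          rw [Pool.Agent.FB.H63.cobm_apply] at h
          change _ = (0 : ZMod 2) at h
          rw [← h]
          simp only [he, map_mul]
          have h5 : ∀ l' : Fin r, ((am C (R l) (S l')).sum fun h c =>
              c * (f : Q × I → ZMod 2) (π g * π h, S l')) =
              (C.bd (R l) (S l')).coeff.sum fun h a =>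
                a • (f : Q × I → ZMod 2) (π g * π h, S l') := by
            intro l'
            rw [am_sum C (R l) (S l') (fun h c => c * (f : Q × I → ZMod 2) (π g * π h, S l'))
              (fun h => zero_mul _)]
            refine Finsupp.sum_congr fun h _ => ?_
            rw [zsmul_eq_mul]
          simp only [h5]
          refine (Finset.sum_map Finset.univ ⟨S, hS⟩ (fun j => (C.bd (R l) j).coeff.sum
            fun h a => a • (f : Q × I → ZMod 2) (π g * π h, j))).symm.trans ?_
          refine Finset.sum_subset (Finset.subset_univ _) fun j _ hj => ?_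
          rw [Finsupp.sum]
          refine Finset.sum_eq_zero fun h _ => ?_
          rw [hvan f.1 f.2 _ j, smul_zero]
          intro l' hl'
          exact hj (Finset.mem_map.2 ⟨l', Finset.mem_univ _, hl'⟩)⟩
        map_add' := fun _ _ => rfl
        map_smul' := fun _ _ => rfl }
    refine LinearMap.finrank_le_finrank_of_injective (f := Φ) ?_
    intro f g hfg
    ext ⟨q, j⟩
    by_cases hj : ∀ l, S l ≠ j
    · rw [hvan f.1 f.2 q j hj, hvan g.1 g.2 q j hj]
    · push Not at hj
      obtain ⟨l, rfl⟩ := hj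
      have h := congrFun (congrFun (congrArg Subtype.val hfg) l) (e.symm q)
      change (f : Q × I → ZMod 2) (e (e.symm q), S l) =
        (g : Q × I → ZMod 2) (e (e.symm q), S l) at h
      rwa [Equiv.apply_symm_apply] at h
  have h4 : Fintype.card Q * (Nat.card {j : I // P j} + r) ≤ Fintype.card Q * nc C n :=
    Nat.mul_le_mul_left _ hcard
  rw [mul_add] at h4
  rw [mul_comm] at h2
  change Module.finrank (ZMod 2) N + _ ≤ _
  omega

/-- The arithmetic. -/
theorem arith {q hh N₁ N₂ z₁ z₂ k₁ k₂ r₁ r₂ : ℕ} (e : hh + q * N₁ = z₂ + z₁)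
    (b₁ : z₁ + q * r₁ ≤ k₁ + q * N₁) (b₂ : z₂ + q * r₂ ≤ k₂ + q * N₂) (hN : N₂ ≤ r₁ + r₂)
    (hq : 0 < q) {ε : ℝ} (h₁ : (k₁ : ℝ) ≤ ε / 4 * q) (h₂ : (k₂ : ℝ) ≤ ε / 4 * q) :
    (hh : ℝ) / q ≤ ε / 2 := by
  have h3 : q * N₂ ≤ q * r₁ + q * r₂ := by
    rw [← mul_add]
    exact Nat.mul_le_mul_left _ hN
  have h4 : hh ≤ k₁ + k₂ := by omega
  have h5 : (hh : ℝ) ≤ k₁ + k₂ := by exact_mod_cast h4
  have hq' : (0 : ℝ) < q := by exact_mod_cast hq
  rw [div_le_iff₀ hq']
  linarith

theorem l2a (hLak : LakStmt) (hLow : LowStmt) (hBr : BrStmt) : L2aStmt := by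
  classical
  intro G _ D hSm I _ C n hH
  have hb0 : 0 ≤ betti C n := by
    unfold betti
    positivity
  -- the square matrices
  obtain ⟨r1, r2, R1, C1, R2, C2, -, hC1, -, hC2, -, hd1, -, hd2, hcard, hu1, hu2⟩ :=
    hLak D.K I C.deg (AK D C) n (by
      intro i j hij
      refine C.bd_deg i j fun h0 => hij ?_
      rw [AK, h0]
      rfl) (by
      intro x hx1 hx2
      obtain ⟨y, hy1, hy2⟩ := hH x hx1 (by
        funext i
        rw [delta_kL, hx2 i]
        rfl)
      refine ⟨y, hy1, fun i => ?_⟩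
      rw [← hy2, delta_kL])
  have hAK : ∀ i j, ((am C i j).sum fun h c => (c : F2) • D.s h) = AK D C i j := by
    intro i j
    rw [am_sum C i j (fun h c => (c : F2) • D.s h) (fun h => zero_smul _ _), AK]
  refine le_antisymm (le_of_forall_pos_le_add fun ε hε => ?_) hb0
  rw [zero_add]
  obtain ⟨S, hS1, hS⟩ := hLow G I C n (ε / 2) (half_pos hε)
  obtain ⟨K, hKn, hKf, hKS, b1, b2⟩ := hSm r1 r2 (fun l l' => am C (R1 l) (C1 l'))
    (fun l l' => am C (R2 l) (C2 l')) (by
    simp only [hAK]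
    exact hu1) (by
    simp only [hAK]
    exact hu2) (ε / 4) (by positivity) S hS1
  let : Fintype (G ⧸ K) := Fintype.ofFinite _
  have hlow := hS K hKn hKf hKS 2
  have hbr := hBr (ZMod 2) G I C (G ⧸ K) (QuotientGroup.mk' K) (QuotientGroup.mk'_surjective K)
    (n : ℤ)
  have hker : (QuotientGroup.mk' K).ker = K := QuotientGroup.ker_mk' K
  rw [hker] at hbr
  have r₁ := finrank_map_add (Cm (ZMod 2) C (G ⧸ K) (n : ℤ)) (cobm (ZMod 2) C (QuotientGroup.mk' K))
  have r₂ := finrank_map_add (Cm (ZMod 2) C (G ⧸ K) ((n : ℤ) - 1))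
    (cobm (ZMod 2) C (QuotientGroup.mk' K))
  have r₃ := finrank_Cm C (G ⧸ K) ((n : ℤ) - 1)
  have c1 := bound C K (QuotientGroup.mk' K) (Equiv.refl _) (fun _ => rfl) ((n : ℤ) - 1) R1 C1 hC1
    (fun l => by have := hd1 l; omega)
  have c2 := bound C K (QuotientGroup.mk' K) (Equiv.refl _) (fun _ => rfl) (n : ℤ) R2 C2 hC2
    (fun l => by have := hd2 l; omega)
  have hnc : nc C (n : ℤ) ≤ r1 + r2 := by
    refine le_trans (le_of_eq ?_) hcard
    unfold nc
    congr 1
    simp only [Nat.cast_inj]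
  have hidx : K.index = Fintype.card (G ⧸ K) := by
    rw [Subgroup.index, Nat.card_eq_fintype_card]
  have e1 : (hd (ZMod 2) C K (n : ℤ) : ℤ) + Fintype.card (G ⧸ K) * nc C ((n : ℤ) - 1) =
      Module.finrank (ZMod 2) (Cm (ZMod 2) C (G ⧸ K) (n : ℤ) ⊓
        LinearMap.ker (cobm (ZMod 2) C (QuotientGroup.mk' K)) :
          Submodule (ZMod 2) ((G ⧸ K) × I → ZMod 2)) +
      Module.finrank (ZMod 2) (Cm (ZMod 2) C (G ⧸ K) ((n : ℤ) - 1) ⊓
        LinearMap.ker (cobm (ZMod 2) C (QuotientGroup.mk' K)) :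
          Submodule (ZMod 2) ((G ⧸ K) × I → ZMod 2)) := by
    rw [← Nat.cast_mul, ← r₃, ← r₂, hbr, ← r₁]
    push_cast
    ring
  rw [hidx] at b1 b2 hlow
  have h5 := arith (by exact_mod_cast e1) c1 c2 hnc Fintype.card_pos b1 b2
  linarith

/-- Smallness, from the modules INJK, TIL and SEPF. -/
theorem sml (hInj : InjkStmt) (hTil : TilStmt) (hSep : SepfStmt) : SmlStmt := by
  intro G _ T F hF D r1 r2 a1 a2 hu1 hu2 ε hε S hS1
  obtain ⟨j1, hj1⟩ := hInj G T F hF D r1 a1 hu1
  obtain ⟨j2, hj2⟩ := hInj G T F hF D r2 a2 hu2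
  obtain ⟨j3, hj3⟩ := hSep G T S hS1
  let j := max j1 (max j2 j3)
  obtain ⟨K1, hn1, hf1, hm1, hK1⟩ := hTil G T j r1 _ (hj1 j (le_max_left _ _)) ε hε
  obtain ⟨K2, hn2, hf2, hm2, hK2⟩ := hTil G T j r2 _
    (hj2 j ((le_max_left _ _).trans (le_max_right _ _))) ε hε
  obtain ⟨K3, hn3, hf3, hm3, hK3⟩ := hj3 j ((le_max_right _ _).trans (le_max_right _ _))
  let K := K1 ⊓ K2 ⊓ K3
  have hKn : K.Normal := inferInstance
  have hKf : K.FiniteIndex := inferInstance
  have hKm : T.M j ≤ K := le_inf (le_inf hm1 hm2) hm3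
  exact ⟨K, hKn, hKf, fun s hs h => hK3 s hs h.2,
    hK1 K hKn hKf hKm (inf_le_left.trans inf_le_left),
    hK2 K hKn hKf hKm (inf_le_left.trans inf_le_right)⟩

end

end Pool.Agent.RTF.H40
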